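import Pool.Agent.R3h27.Pts

set_option autoImplicit false

/-!
# Rays and their transport by a matrix of determinant prime to `p`
-/

open UpperHalfPlane Pool.Agent.Helper11.ZP Pool.Agent.Helper11.ZU Pool.Agent.Helper20.ZT
open Pool.Agent.Helper20.ZT.Prim
open scoped MatrixGroups

namespace Pool.Agent.R3h27

/-- primitive integral matrices -/
def Pri (A : M2) : Prop := ∀ k : ℤ, Dv k A → k ∣ 1

theorem pri_iff {m : ℤ} (A : DM m) : IsPrim A ↔ Pri A.1 := Iff.rfl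

/-- a matrix with a nonzero entry is a multiple of a primitive matrix -/
theorem exists_prim {A : M2} (hA : A.det ≠ 0) : ∃ (d : ℤ) (B : M2), 0 < d ∧ A = d • B ∧ Pri B := by
  set c : ℤ := ((Int.gcd (Int.gcd (A 0 0) (A 0 1)) (Int.gcd (A 1 0) (A 1 1)) : ℕ) : ℤ) with hc
  have hdvd : Dv c A := by
    have a1 : c ∣ (Int.gcd (A 0 0) (A 0 1) : ℤ) := Int.gcd_dvd_left ..
    have a2 : c ∣ (Int.gcd (A 1 0) (A 1 1) : ℤ) := Int.gcd_dvd_right ..
    intro i j
    fin_cases i <;> fin_cases j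
    · exact a1.trans (Int.gcd_dvd_left ..)
    · exact a1.trans (Int.gcd_dvd_right ..)
    · exact a2.trans (Int.gcd_dvd_left ..)
    · exact a2.trans (Int.gcd_dvd_right ..)
  have hmax : ∀ k : ℤ, Dv k A → k ∣ c := by
    intro k hk
    exact Int.dvd_coe_gcd (Int.dvd_coe_gcd (hk 0 0) (hk 0 1)) (Int.dvd_coe_gcd (hk 1 0) (hk 1 1))
  have hc0 : c ≠ 0 := by
    intro h
    have hz : ∀ i j, A i j = 0 := fun i j => by
      have := hdvd i j
      rw [h] at this
      exact zero_dvd_iff.1 this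
    apply hA
    rw [Matrix.det_fin_two, hz 0 0, hz 0 1]
    simp
  obtain ⟨B, hB⟩ := dv_iff.mp hdvd
  refine ⟨c, B, lt_of_le_of_ne (by rw [hc]; exact Int.natCast_nonneg _) (Ne.symm hc0), hB, ?_⟩
  intro k hk
  have h1 : c * k ∣ c := by
    apply hmax
    intro i j
    rw [hB, Matrix.smul_apply, smul_eq_mul]
    exact mul_dvd_mul_left c (hk i j)
  have h2 : c * k ∣ c * 1 := by rwa [mul_one]
  exact (mul_dvd_mul_iff_left hc0).1 h2

/-- primitivity is preserved by commutation -/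
theorem Pri.comm {p : ℕ} (hp : p.Prime) {A A' P Q : M2} (hpA : ¬ (p : ℤ) ∣ A.det) (hA : Pri A)
    (hdet : A'.det = A.det) (hQ : Q.det = p) (h : Q * A = A' * P) : Pri A' := by
  intro k hk
  -- `k ^ 2` divides the determinant, so `k` is prime to `p`
  obtain ⟨C, hC⟩ := dv_iff.mp hk
  have h1 : k ^ 2 ∣ A.det := by
    rw [← hdet, hC, det_smul2]; exact dvd_mul_right _ _
  have hcop : IsCoprime k (p : ℤ) := by
    have hpZ : Prime (p : ℤ) := Nat.prime_iff_prime_int.mp hp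
    refine ((Prime.coprime_iff_not_dvd hpZ).mpr fun h2 => hpA ?_).symm
    exact (h2.trans (Dvd.intro_left (k ^ 1) (by ring))).trans h1
  have h2 : Dv k (Q.adjugate * (Q * A)) := by
    rw [h]
    exact (hk.mul_right P).mul_left _
  rw [← Matrix.mul_assoc, adj_mul' hQ, Matrix.smul_mul, Matrix.one_mul] at h2
  apply hA
  intro i j
  have h3 := h2 i j
  rw [Matrix.smul_apply, smul_eq_mul] at h3
  exact hcop.dvd_of_dvd_mul_left h3

/-- **transport of a ray** by a matrix of determinant prime to `p` -/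
theorem exists_ray {p : ℕ} (hp : p.Prime) {P : ℕ → M2} (hP : ∀ k, (P k).det = p) {A : M2}
    (hA : ¬ (p : ℤ) ∣ A.det) :
    ∃ Q B : ℕ → M2, B 0 = A ∧ (∀ k, (Q k).det = p) ∧ (∀ k, (B k).det = A.det) ∧
      (∀ k, Q k * B k = B (k + 1) * P k) ∧
      (∀ k, Dv p (Q (k + 1) * Q k) ↔ Dv p (P (k + 1) * P k)) ∧ (Pri A → ∀ k, Pri (B k)) := by
  choose F G hF hG hFG using fun (k : ℕ) (A : M2) => exists_comm hp A (hP k)
  obtain ⟨B, hB0, hB⟩ : ∃ B : ℕ → M2, B 0 = A ∧ ∀ k, B (k + 1) = G k (B k) :=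
    ⟨fun k => Nat.rec A (fun k B => G k B) k, rfl, fun _ => rfl⟩
  have hdet : ∀ k, (B k).det = A.det := by
    intro k
    induction k with
    | zero => rw [hB0]
    | succ k ih => rw [hB, hG, ih]
  have hcomm : ∀ k, F k (B k) * B k = B (k + 1) * P k := fun k => by rw [hB]; exact hFG k (B k)
  refine ⟨fun k => F k (B k), B, hB0, fun k => hF k _, hdet, hcomm, fun k => ?_, fun hPri k => ?_⟩
  · exact nonback hp (by rw [hdet]; exact hA) (by rw [hdet, hdet]) (hcomm k) (hcomm (k + 1))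
  · induction k with
    | zero => rw [hB0]; exact hPri
    | succ k ih =>
      exact Pri.comm hp (by rw [hdet]; exact hA) ih (by rw [hdet, hdet]) (hF k (B k)) (hcomm k)

/-- **transport of a ray, on points** -/
theorem exists_ray_pts {p : ℕ} (hp : p.Prime) {P : ℕ → M2} (hP : ∀ k, (P k).det = p) {A : M2}
    (hApos : 0 < A.det) (hA : ¬ (p : ℤ) ∣ A.det) {τ : ℕ → ℍ} (hτ : ∀ k, Mv (P k) (τ k) (τ (k + 1)))
    {σ₀ : ℍ} (hσ : Mv A (τ 0) σ₀) :
    ∃ (Q B : ℕ → M2) (σ : ℕ → ℍ), B 0 = A ∧ σ 0 = σ₀ ∧ (∀ k, (Q k).det = p) ∧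
      (∀ k, (B k).det = A.det) ∧ (∀ k, Mv (B k) (τ k) (σ k)) ∧ (∀ k, Mv (Q k) (σ k) (σ (k + 1))) ∧
      (∀ k, Dv p (Q (k + 1) * Q k) ↔ Dv p (P (k + 1) * P k)) ∧ (Pri A → ∀ k, Pri (B k)) := by
  obtain ⟨Q, B, h0, hQ, hB, hc, hnb, hpr⟩ := exists_ray hp hP hA
  choose σ hσ' using fun k => exists_mv (A := B k) (by rw [hB]; exact hApos) (τ k)
  have hA0 : A.det ≠ 0 := hApos.ne'
  refine ⟨Q, B, σ, h0, ?_, hQ, hB, hσ', fun k => ?_, hnb, hpr⟩
  · have h1 := hσ' 0
    rw [h0] at h1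
    exact h1.unique hA0 hσ
  · have h1 : Mv (B (k + 1) * P k) (τ k) (σ (k + 1)) := (hτ k).mul (hσ' (k + 1))
    rw [← hc] at h1
    exact h1.cancel (by rw [hB]; exact hA0) (hσ' k)

/-- **removal of the `p`-part**: a property of points which passes backwards along the matrices of
determinant `p` -/
theorem strip {p : ℕ} (hp : p.Prime) (R : ℍ → Prop)
    (hR : ∀ (P : M2) (σ σ' : ℍ), P.det = p → Mv P σ σ' → R σ' → R σ) {A : M2} (hA : 0 < A.det)
    {τ τ' : ℍ} (h : Mv A τ τ') (hτ' : R τ') :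
    ∃ (C : M2) (τ'' : ℍ), 0 < C.det ∧ ¬ (p : ℤ) ∣ C.det ∧ Pri C ∧ Mv C τ τ'' ∧ R τ'' := by
  have hp2 : (2 : ℤ) ≤ p := by exact_mod_cast hp.two_le
  -- first without primitivity
  have key : ∀ (n : ℕ) (A : M2) (τ' : ℍ), A.det.toNat = n → 0 < A.det → Mv A τ τ' → R τ' →
      ∃ (C : M2) (τ'' : ℍ), 0 < C.det ∧ ¬ (p : ℤ) ∣ C.det ∧ Mv C τ τ'' ∧ R τ'' := by
    intro n
    induction n using Nat.strong_induction_on with
    | _ n ih =>
      intro A τ' hn hA h hτ'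
      by_cases hpA : (p : ℤ) ∣ A.det
      · obtain ⟨P, C, hP, hPC, hdet⟩ := factor_left hp hpA
        have hCpos : 0 < C.det := by
          rw [hdet] at hA
          exact (pos_iff_pos_of_mul_pos hA).1 (by omega)
        rw [hPC] at h
        obtain ⟨σ, h1, h2⟩ := h.split hCpos
        have hlt : C.det.toNat < n := by
          rw [← hn]
          have : C.det < A.det := by rw [hdet]; nlinarith
          omega
        exact ih _ hlt C σ rfl hCpos h1 (hR P σ τ' hP h2 hτ')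
      · exact ⟨A, τ', hA, hpA, h, hτ'⟩
  obtain ⟨C, τ'', h1, h2, h3, h4⟩ := key _ A τ' rfl hA h hτ'
  obtain ⟨d, D, hd, hCD, hD⟩ := exists_prim h1.ne'
  have hdet : C.det = d ^ 2 * D.det := by rw [hCD, det_smul2]
  refine ⟨D, τ'', ?_, fun h5 => h2 ?_, hD, ?_, h4⟩
  · rw [hdet] at h1
    exact (pos_iff_pos_of_mul_pos h1).1 (by positivity)
  · rw [hdet]; exact h5.mul_left _
  · rw [hCD] at h3
    exact (mv_smul hd.ne' _ _ _).mp h3

end Pool.Agent.R3h27
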