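import Mathlib

set_option autoImplicit false

/-!
# Integral `2 × 2` matrices of prime determinant: commutation, backtracking, factorisation
-/

namespace Pool.Agent.R3h27

open Matrix

/-- integral `2 × 2` matrices -/
abbrev M2 := Matrix (Fin 2) (Fin 2) ℤ

/-- all entries of `A` are divisible by `n` -/
def Dv (n : ℤ) (A : M2) : Prop := ∀ i j, n ∣ A i j

theorem dv_iff {n : ℤ} {A : M2} : Dv n A ↔ ∃ C : M2, A = n • C := by
  constructor
  · intro h
    choose C hC using h
    refine ⟨Matrix.of C, ?_⟩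
    ext i j
    simp [hC i j]
  · rintro ⟨C, rfl⟩ i j
    exact ⟨C i j, by simp⟩

theorem Dv.mul_left {n : ℤ} {A : M2} (h : Dv n A) (B : M2) : Dv n (B * A) := by
  obtain ⟨C, rfl⟩ := dv_iff.mp h
  exact dv_iff.mpr ⟨B * C, by rw [Matrix.mul_smul]⟩

theorem Dv.mul_right {n : ℤ} {A : M2} (h : Dv n A) (B : M2) : Dv n (A * B) := by
  obtain ⟨C, rfl⟩ := dv_iff.mp h
  exact dv_iff.mpr ⟨C * B, by rw [Matrix.smul_mul]⟩

theorem smul_cancel {n : ℤ} (hn : n ≠ 0) {A B : M2} (h : n • A = n • B) : A = B := by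
  ext i j
  have := congrFun (congrFun h i) j
  simp only [Matrix.smul_apply, smul_eq_mul] at this
  exact mul_left_cancel₀ hn this

theorem det_smul2 (n : ℤ) (A : M2) : (n • A).det = n ^ 2 * A.det := by
  rw [Matrix.det_smul]; simp

theorem adj_mul' {A : M2} {p : ℤ} (h : A.det = p) : A.adjugate * A = p • (1 : M2) := by
  rw [Matrix.adjugate_mul, h]

theorem mul_adj' {A : M2} {p : ℤ} (h : A.det = p) : A * A.adjugate = p • (1 : M2) := by
  rw [Matrix.mul_adjugate, h]

theorem det_adj' (A : M2) : A.adjugate.det = A.det := by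
  rw [Matrix.det_adjugate]; simp

/-- if `p` divides the product and `det A` is prime to `p`, then `p` divides the other factor -/
theorem Dv.of_mul_left {p : ℕ} (hp : p.Prime) {A B : M2} (hA : ¬ (p : ℤ) ∣ A.det)
    (h : Dv p (A * B)) : Dv p B := by
  have hpZ : Prime (p : ℤ) := Nat.prime_iff_prime_int.mp hp
  have h1 : Dv p (A.adjugate * (A * B)) := h.mul_left _
  rw [← Matrix.mul_assoc, Matrix.adjugate_mul, Matrix.smul_mul, Matrix.one_mul] at h1
  intro i j
  have h2 := h1 i j
  rw [Matrix.smul_apply, smul_eq_mul] at h2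
  exact (hpZ.dvd_or_dvd h2).resolve_left hA

theorem Dv.of_mul_right {p : ℕ} (hp : p.Prime) {A B : M2} (hA : ¬ (p : ℤ) ∣ A.det)
    (h : Dv p (B * A)) : Dv p B := by
  have hpZ : Prime (p : ℤ) := Nat.prime_iff_prime_int.mp hp
  have h1 : Dv p ((B * A) * A.adjugate) := h.mul_right _
  rw [Matrix.mul_assoc, Matrix.mul_adjugate, Matrix.mul_smul, Matrix.mul_one] at h1
  intro i j
  have h2 := h1 i j
  rw [Matrix.smul_apply, smul_eq_mul] at h2
  exact (hpZ.dvd_or_dvd h2).resolve_left hA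

/-- a matrix which is singular modulo `p` is killed by a matrix of determinant `p` on the left -/
theorem exists_left {p : ℕ} (hp : p.Prime) {B : M2} (hB : (p : ℤ) ∣ B.det) :
    ∃ P : M2, P.det = p ∧ Dv p (P * B) := by
  have hpZ : Prime (p : ℤ) := Nat.prime_iff_prime_int.mp hp
  rw [Matrix.det_fin_two] at hB
  set a := B 0 0 with ha
  set b := B 0 1 with hb
  set c := B 1 0 with hc
  set d := B 1 1 with hd
  by_cases h0 : (p : ℤ) ∣ a ∧ (p : ℤ) ∣ b
  · refine ⟨!![1, 0; 0, (p : ℤ)], by simp [Matrix.det_fin_two_of], ?_⟩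
    intro i j
    fin_cases i <;> fin_cases j
    · simpa [Matrix.mul_apply, Fin.sum_univ_two] using h0.1
    · simpa [Matrix.mul_apply, Fin.sum_univ_two] using h0.2
    · simp [Matrix.mul_apply, Fin.sum_univ_two]
    · simp [Matrix.mul_apply, Fin.sum_univ_two]
  · -- some `l` with `c ≡ l a`, `d ≡ l b`
    obtain ⟨l, hl1, hl2⟩ : ∃ l : ℤ, (p : ℤ) ∣ c - l * a ∧ (p : ℤ) ∣ d - l * b := by
      rcases not_and_or.mp h0 with h | h
      · have hcop : IsCoprime a (p : ℤ) := ((Prime.coprime_iff_not_dvd hpZ).mpr h).symm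
        obtain ⟨u, w, huw⟩ := hcop
        refine ⟨c * u, ⟨c * w, by linear_combination (-c) * huw⟩, ?_⟩
        obtain ⟨k, hk⟩ := hB
        exact ⟨d * w + u * k, by linear_combination (-d) * huw + u * hk⟩
      · have hcop : IsCoprime b (p : ℤ) := ((Prime.coprime_iff_not_dvd hpZ).mpr h).symm
        obtain ⟨u, w, huw⟩ := hcop
        refine ⟨d * u, ?_, ⟨d * w, by linear_combination (-d) * huw⟩⟩
        obtain ⟨k, hk⟩ := hB
        exact ⟨c * w - u * k, by linear_combination (-c) * huw - u * hk⟩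
    refine ⟨!![-l, 1; -(p : ℤ), 0], by simp [Matrix.det_fin_two_of], ?_⟩
    intro i j
    fin_cases i <;> fin_cases j
    · have : (!![-l, 1; -(p : ℤ), 0] * B) 0 0 = c - l * a := by
        simp [Matrix.mul_apply, Fin.sum_univ_two, ha, hc]; ring
      change (p : ℤ) ∣ (!![-l, 1; -(p : ℤ), 0] * B) 0 0
      rw [this]; exact hl1
    · have : (!![-l, 1; -(p : ℤ), 0] * B) 0 1 = d - l * b := by
        simp [Matrix.mul_apply, Fin.sum_univ_two, hb, hd]; ring
      change (p : ℤ) ∣ (!![-l, 1; -(p : ℤ), 0] * B) 0 1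
      rw [this]; exact hl2
    · simp [Matrix.mul_apply, Fin.sum_univ_two]
    · simp [Matrix.mul_apply, Fin.sum_univ_two]

theorem exists_right {p : ℕ} (hp : p.Prime) {B : M2} (hB : (p : ℤ) ∣ B.det) :
    ∃ P : M2, P.det = p ∧ Dv p (B * P) := by
  obtain ⟨P, hP, h⟩ := exists_left hp (B := B.transpose) (by rwa [Matrix.det_transpose])
  refine ⟨P.transpose, by rw [Matrix.det_transpose, hP], ?_⟩
  intro i j
  have := h j i
  rw [← Matrix.transpose_apply (P * B.transpose), Matrix.transpose_mul, Matrix.transpose_transpose] at this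
  exact this

/-- **factoring out `p` on the left** -/
theorem factor_left {p : ℕ} (hp : p.Prime) {B : M2} (hB : (p : ℤ) ∣ B.det) :
    ∃ P C : M2, P.det = p ∧ B = P * C ∧ B.det = p * C.det := by
  have hp0 : (p : ℤ) ≠ 0 := by exact_mod_cast hp.ne_zero
  obtain ⟨P, hP, h⟩ := exists_left hp hB
  obtain ⟨C, hC⟩ := dv_iff.mp h
  have h1 : B = P.adjugate * C := by
    apply smul_cancel hp0
    have h2 : P.adjugate * (P * B) = P.adjugate * ((p : ℤ) • C) := by rw [hC]
    rw [← Matrix.mul_assoc, adj_mul' hP, Matrix.smul_mul, Matrix.one_mul, Matrix.mul_smul] at h2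
    exact h2
  exact ⟨P.adjugate, C, by rw [det_adj', hP], h1, by rw [h1, Matrix.det_mul, det_adj', hP]⟩

/-- **factoring out `p` on the right** -/
theorem factor_right {p : ℕ} (hp : p.Prime) {B : M2} (hB : (p : ℤ) ∣ B.det) :
    ∃ P C : M2, P.det = p ∧ B = C * P ∧ B.det = p * C.det := by
  have hp0 : (p : ℤ) ≠ 0 := by exact_mod_cast hp.ne_zero
  obtain ⟨P, hP, h⟩ := exists_right hp hB
  obtain ⟨C, hC⟩ := dv_iff.mp h
  have h1 : B = C * P.adjugate := by
    apply smul_cancel hp0
    have h2 : (B * P) * P.adjugate = ((p : ℤ) • C) * P.adjugate := by rw [hC]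
    rw [Matrix.mul_assoc, mul_adj' hP, Matrix.mul_smul, Matrix.mul_one, Matrix.smul_mul] at h2
    exact h2
  exact ⟨P.adjugate, C, by rw [det_adj', hP], h1, by
    rw [h1, Matrix.det_mul, det_adj', hP, mul_comm]⟩

/-- **commutation**: a matrix `P` of determinant `p` and a matrix `A` can be interchanged:
`P' A = A' P` with `det P' = p`, `det A' = det A`. -/
theorem exists_comm {p : ℕ} (hp : p.Prime) (A : M2) {P : M2} (hP : P.det = p) :
    ∃ P' A' : M2, P'.det = p ∧ A'.det = A.det ∧ P' * A = A' * P := by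
  have hp0 : (p : ℤ) ≠ 0 := by exact_mod_cast hp.ne_zero
  obtain ⟨P', hP', h⟩ := exists_left hp (B := A * P.adjugate)
    (by rw [Matrix.det_mul, det_adj', hP]; exact dvd_mul_left _ _)
  obtain ⟨C, hC⟩ := dv_iff.mp h
  have h1 : P' * A = C * P := by
    apply smul_cancel hp0
    have h2 : (P' * (A * P.adjugate)) * P = ((p : ℤ) • C) * P := by rw [hC]
    rw [Matrix.mul_assoc, Matrix.mul_assoc, adj_mul' hP, Matrix.mul_smul, Matrix.mul_one,
      Matrix.mul_smul, Matrix.smul_mul] at h2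
    exact h2
  refine ⟨P', C, hP', ?_, h1⟩
  have h3 := congrArg Matrix.det h1
  rw [Matrix.det_mul, Matrix.det_mul, hP', hP] at h3
  have : (p : ℤ) * C.det = p * A.det := by linear_combination -h3
  exact mul_left_cancel₀ hp0 this

/-- commutation on the other side -/
theorem exists_comm' {p : ℕ} (hp : p.Prime) (A : M2) {P : M2} (hP : P.det = p) :
    ∃ P' A' : M2, P'.det = p ∧ A'.det = A.det ∧ A * P' = P * A' := by
  obtain ⟨P', A', h1, h2, h3⟩ := exists_comm hp A.transpose (P := P.transpose)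
    (by rw [Matrix.det_transpose, hP])
  refine ⟨P'.transpose, A'.transpose, by rw [Matrix.det_transpose, h1],
    by rw [Matrix.det_transpose, h2, Matrix.det_transpose], ?_⟩
  have h4 := congrArg Matrix.transpose h3
  rw [Matrix.transpose_mul, Matrix.transpose_mul, Matrix.transpose_transpose,
    Matrix.transpose_transpose] at h4
  exact h4

/-- **non-backtracking is preserved by commutation** -/
theorem nonback {p : ℕ} (hp : p.Prime) {A A1 A2 P1 P2 Q1 Q2 : M2} (hA : ¬ (p : ℤ) ∣ A.det)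
    (hA2 : A2.det = A.det) (h1 : Q1 * A = A1 * P1) (h2 : Q2 * A1 = A2 * P2) :
    Dv p (Q2 * Q1) ↔ Dv p (P2 * P1) := by
  have h3 : (Q2 * Q1) * A = A2 * (P2 * P1) := by
    rw [Matrix.mul_assoc, h1, ← Matrix.mul_assoc, h2, Matrix.mul_assoc]
  constructor
  · intro h
    have h4 : Dv p (A2 * (P2 * P1)) := h3 ▸ h.mul_right A
    exact Dv.of_mul_left hp (by rwa [hA2]) h4
  · intro h
    have h4 : Dv p ((Q2 * Q1) * A) := h3 ▸ h.mul_left A2
    exact Dv.of_mul_right hp hA h4

/-- for matrices of determinant `p`: `p` divides `Q P` iff `Q` and the adjugate of `P` differ by a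
factor in `SL₂(ℤ)` on the left -/
theorem dv_mul_iff {p : ℕ} (hp : p.Prime) {P Q : M2} (hP : P.det = p) (hQ : Q.det = p) :
    Dv p (Q * P) ↔ ∃ G : M2, G.det = 1 ∧ Q = G * P.adjugate := by
  have hp0 : (p : ℤ) ≠ 0 := by exact_mod_cast hp.ne_zero
  constructor
  · intro h
    obtain ⟨C, hC⟩ := dv_iff.mp h
    have h1 : Q = C * P.adjugate := by
      apply smul_cancel hp0
      have h2 : (Q * P) * P.adjugate = ((p : ℤ) • C) * P.adjugate := by rw [hC]
      rw [Matrix.mul_assoc, mul_adj' hP, Matrix.mul_smul, Matrix.mul_one, Matrix.smul_mul] at h2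
      exact h2
    refine ⟨C, ?_, h1⟩
    have h3 := congrArg Matrix.det h1
    rw [Matrix.det_mul, det_adj', hP, hQ] at h3
    exact mul_right_cancel₀ hp0 (by rw [one_mul]; exact h3.symm)
  · rintro ⟨G, -, rfl⟩
    rw [Matrix.mul_assoc, adj_mul' hP]
    exact dv_iff.mpr ⟨G, by rw [Matrix.mul_smul, Matrix.mul_one]⟩

/-- two matrices of determinant `p` lie in the same orbit of `SL₂(ℤ)` iff `p` divides `Q adj P` -/
theorem orbit_iff {p : ℕ} (hp : p.Prime) {P Q : M2} (hP : P.det = p) (hQ : Q.det = p) :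
    Dv p (Q * P.adjugate) ↔ ∃ G : M2, G.det = 1 ∧ Q = G * P := by
  have h := dv_mul_iff hp (P := P.adjugate) (Q := Q) (by rw [det_adj', hP]) hQ
  rw [h]
  have : P.adjugate.adjugate = P := by
    rw [Matrix.adjugate_adjugate' P]; simp
  rw [this]

end Pool.Agent.R3h27
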