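import Pool.Agent.R3h27.Mat
import Pool.Agent.Helper11.ZU.Hyper

set_option autoImplicit false

/-!
# The action of integral matrices on points, rays and their transport
-/

open UpperHalfPlane Pool.Agent.Helper11.ZP Pool.Agent.Helper11.ZU Pool.Agent.Helper20.ZT
open Pool.Agent.Helper20.ZT.Prim
open scoped MatrixGroups

namespace Pool.Agent.R3h27

/-- `τ' = A τ` -/
def Mv (A : M2) (τ τ' : ℍ) : Prop :=
  (τ' : ℂ) * ((A 1 0 : ℂ) * (τ : ℂ) + (A 1 1 : ℂ)) = (A 0 0 : ℂ) * (τ : ℂ) + (A 0 1 : ℂ)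

theorem den_ne_zero {A : M2} (hA : A.det ≠ 0) (τ : ℍ) : (A 1 0 : ℂ) * (τ : ℂ) + (A 1 1 : ℂ) ≠ 0 := by
  intro h
  have him := congrArg Complex.im h
  have hre := congrArg Complex.re h
  simp only [Complex.add_im, Complex.mul_im, Complex.intCast_re, Complex.intCast_im, zero_mul,
    add_zero, Complex.zero_im, Complex.add_re, Complex.mul_re, sub_zero, Complex.zero_re] at him hre
  have hτ : (τ : ℂ).im ≠ 0 := τ.im_pos.ne'
  have h1 : ((A 1 0 : ℤ) : ℝ) = 0 := (mul_eq_zero.mp him).resolve_right hτ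
  rw [h1, zero_mul, zero_add] at hre
  apply hA
  rw [Matrix.det_fin_two]
  have h2 : A 1 0 = 0 := by exact_mod_cast h1
  have h3 : A 1 1 = 0 := by exact_mod_cast hre
  rw [h2, h3]; ring

theorem Mv.mul {A B : M2} {τ τ' τ'' : ℍ} (h1 : Mv A τ τ') (h2 : Mv B τ' τ'') : Mv (B * A) τ τ'' := by
  unfold Mv at *
  simp only [Matrix.mul_apply, Fin.sum_univ_two]
  push_cast
  linear_combination ((A 1 0 : ℂ) * (τ : ℂ) + (A 1 1 : ℂ)) * h2 +
    ((B 0 0 : ℂ) - (B 1 0 : ℂ) * (τ'' : ℂ)) * h1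

theorem Mv.unique {A : M2} (hA : A.det ≠ 0) {τ τ' τ'' : ℍ} (h1 : Mv A τ τ') (h2 : Mv A τ τ'') :
    τ' = τ'' := by
  unfold Mv at *
  have h3 := den_ne_zero hA τ
  have h4 : (τ' : ℂ) = τ'' := mul_right_cancel₀ h3 (h1.trans h2.symm)
  exact UpperHalfPlane.ext h4

theorem mv_toGL {m : ℤ} (hm : 0 < m) (A : DM m) (τ : ℍ) : Mv A.1 τ (toGL hm A • τ) := by
  unfold Mv
  have h := den_ne_zero (A := A.1) (by rw [A.2]; exact hm.ne') τ
  rw [UpperHalfPlane.coe_smul_of_det_pos (det_toGL_pos hm A), UpperHalfPlane.num,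
    UpperHalfPlane.denom, toGL_val, toGL_val, toGL_val, toGL_val]
  push_cast
  rw [div_mul_cancel₀ _ h]

theorem exists_mv {A : M2} (hA : 0 < A.det) (τ : ℍ) : ∃ τ', Mv A τ τ' :=
  ⟨toGL hA (⟨A, rfl⟩ : DM A.det) • τ, mv_toGL hA ⟨A, rfl⟩ τ⟩

theorem mv_iff {m : ℤ} (hm : 0 < m) (A : DM m) (τ τ' : ℍ) : Mv A.1 τ τ' ↔ toGL hm A • τ = τ' :=
  ⟨fun h => (mv_toGL hm A τ).unique (by rw [A.2]; exact hm.ne') h, fun h => h ▸ mv_toGL hm A τ⟩

theorem Mv.adj {A : M2} {τ τ' : ℍ} (h : Mv A τ τ') : Mv A.adjugate τ' τ := by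
  unfold Mv at *
  rw [Matrix.adjugate_fin_two]
  simp only [Matrix.cons_val', Matrix.cons_val_zero, Matrix.cons_val_one, Matrix.of_apply,
    Matrix.empty_val', Matrix.cons_val_fin_one]
  push_cast
  linear_combination -h

theorem mv_smul {n : ℤ} (hn : n ≠ 0) (A : M2) (τ τ' : ℍ) : Mv (n • A) τ τ' ↔ Mv A τ τ' := by
  unfold Mv
  simp only [Matrix.smul_apply, smul_eq_mul]
  push_cast
  have hn' : (n : ℂ) ≠ 0 := by exact_mod_cast hn
  constructor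
  · intro h
    apply mul_left_cancel₀ hn'
    linear_combination h
  · intro h
    linear_combination (n : ℂ) * h

theorem mv_one (τ : ℍ) : Mv 1 τ τ := by
  unfold Mv
  simp

/-- cancellation on the right -/
theorem Mv.cancel {A B : M2} (hA : A.det ≠ 0) {τ τ' τ'' : ℍ} (h : Mv (B * A) τ τ'') (h1 : Mv A τ τ') :
    Mv B τ' τ'' := by
  have h2 := (h1.adj).mul h
  rw [Matrix.mul_assoc, Matrix.mul_adjugate, Matrix.mul_smul, Matrix.mul_one] at h2
  exact (mv_smul hA _ _ _).mp h2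

/-- splitting of a product -/
theorem Mv.split {A B : M2} (hA : 0 < A.det) {τ τ'' : ℍ} (h : Mv (B * A) τ τ'') :
    ∃ τ', Mv A τ τ' ∧ Mv B τ' τ'' := by
  obtain ⟨τ', h1⟩ := exists_mv hA τ
  exact ⟨τ', h1, h.cancel hA.ne' h1⟩

/-- `j` is invariant -/
theorem Mv.jInv {G : M2} (hG : G.det = 1) {τ τ' : ℍ} (h : Mv G τ τ') :
    Helper11.ZP.jInv τ' = Helper11.ZP.jInv τ := by
  let γ : SL(2, ℤ) := ⟨G, hG⟩
  have h1 : γ • τ = τ' := by
    have h2 : Mv G τ (γ • τ) := by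
      unfold Mv
      have h := den_ne_zero (A := G) (by rw [hG]; exact one_ne_zero) τ
      have h4 : ((γ • τ : ℍ) : ℂ) = ((G 0 0 : ℂ) * (τ : ℂ) + (G 0 1 : ℂ)) / ((G 1 0 : ℂ) * (τ : ℂ) + (G 1 1 : ℂ)) := by
        rw [UpperHalfPlane.specialLinearGroup_apply]
        simp [γ]
      rw [h4, div_mul_cancel₀ _ h]
    exact h2.unique (by rw [hG]; exact one_ne_zero) h
  rw [← h1]
  exact jInv_SL _ _

end Pool.Agent.R3h27
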