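import Pool.Agent.R3h27.Ray
import Pool.Agent.II.Defs

set_option autoImplicit false

/-!
# Existence of the linked rays
-/

open UpperHalfPlane Pool.Agent.Helper11.ZP Pool.Agent.Helper20.ZT.Prim Pool.Agent.II

namespace Pool.Agent.R3h27

variable {v : AbsoluteValue ℂ ℝ} {p : ℕ} {x₀ : ℂ} {μ : ℝ}

/-- the canonical ray of a point -/
theorem exists_canon_ray (hp : p.Prime) (hC : Canon v p x₀ μ) {τ : ℍ}
    (hR : ∀ (k : ℕ) (B : Mat) (σ : ℍ), B.det = (p : ℤ) ^ k → Mov B τ σ → jInv σ ≠ x₀)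
    (hlt : v (jInv τ - x₀) < 1) :
    ∃ (P : ℕ → Mat) (t : ℕ → ℍ), t 0 = τ ∧ (∀ k, (P k).det = p) ∧ (∀ k, Mov (P k) (t k) (t (k + 1))) ∧
      (∀ k, jInv (t k) ≠ x₀) ∧ (∀ k, v (jInv (t k) - x₀) < 1) ∧
      (∀ k, v (jInv (t (k + 1)) - x₀) < v (jInv (t k) - x₀)) := by
  classical
  -- the states: points reachable from `τ`, in the unit disk
  let S := {σ : ℍ // (∃ (k : ℕ) (B : Mat), B.det = (p : ℤ) ^ k ∧ Mov B τ σ) ∧ v (jInv σ - x₀) < 1}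
  have hS : ∀ s : S, jInv s.1 ≠ x₀ := fun s => by
    obtain ⟨⟨k, B, hB, h⟩, -⟩ := s.2
    exact hR k B _ hB h
  choose P nx hP hM hlt' using fun s : S => hC.ex s.1 (hS s) s.2.2
  have hnx : ∀ s : S, (∃ (k : ℕ) (B : Mat), B.det = (p : ℤ) ^ k ∧ Mov B τ (nx s)) ∧
      v (jInv (nx s) - x₀) < 1 := by
    intro s
    obtain ⟨⟨k, B, hB, h⟩, h1⟩ := s.2
    refine ⟨⟨k + 1, P s * B, ?_, ?_⟩, (hlt' s).trans h1⟩
    · rw [Matrix.det_mul, hP, hB, pow_succ, mul_comm]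
    · exact Mv.mul (A := B) (B := P s) h (hM s)
  obtain ⟨s, hs0, hs⟩ : ∃ s : ℕ → S, (s 0).1 = τ ∧ ∀ k, s (k + 1) = ⟨nx (s k), hnx (s k)⟩ :=
    ⟨fun k => Nat.rec ⟨τ, ⟨0, 1, by simp, mv_one τ⟩, hlt⟩ (fun _ s => ⟨nx s, hnx s⟩) k, rfl, fun _ => rfl⟩
  refine ⟨fun k => P (s k), fun k => (s k).1, hs0, fun k => hP _, fun k => ?_, fun k => hS _,
    fun k => (s k).2.2, fun k => ?_⟩
  · change Mov (P (s k)) (s k).1 (s (k + 1)).1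
    rw [hs]; exact hM (s k)
  · change v (jInv (s (k + 1)).1 - x₀) < _
    rw [hs]; exact hlt' (s k)

/-- **existence of linked rays** -/
theorem exists_rays_nb (hp : p.Prime) (hC : Canon v p x₀ μ) {N : ℤ} (hN0 : 0 < N) (hN : ¬ (p : ℤ) ∣ N)
    {A : Mat} (hA : A.det = N) (hPrm : Prm A) {τ σ : ℍ} (hM : Mov A τ σ)
    (hR : ∀ (k : ℕ) (B : Mat) (ρ : ℍ), B.det = (p : ℤ) ^ k → Mov B τ ρ → jInv ρ ≠ x₀)
    (hlt : v (jInv τ - x₀) < 1) :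
    ∃ (t s : ℕ → ℍ) (P Q B : ℕ → Mat), t 0 = τ ∧ s 0 = σ ∧ B 0 = A ∧ Rays v p x₀ N t s P Q B ∧
      (∀ k, ¬ Dv p (P (k + 1) * P k)) ∧ (∀ k, ¬ Dv p (Q (k + 1) * Q k)) := by
  obtain ⟨P, t, ht0, hP, hMt, hne, hlt1, hdec⟩ := exists_canon_ray hp hC hR hlt
  obtain ⟨Q, B, h0, hQ, hB, hc, hnb, hpr⟩ := exists_ray hp hP (A := A) (by rw [hA]; exact hN)
  have hdet0 : ∀ k, 0 < (B k).det := fun k => by rw [hB, hA]; exact hN0
  choose s hs using fun k => exists_mv (hdet0 k) (t k)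
  have hs0 : s 0 = σ := by
    have h1 := hs 0
    rw [h0, ht0] at h1
    exact h1.unique (by rw [hA]; exact hN0.ne') hM
  have hback : ∀ k, ¬ Dv p (P (k + 1) * P k) := by
    intro k hk
    obtain ⟨G, hG, hGP⟩ := (dv_mul_iff hp (hP k) (hP (k + 1))).mp hk
    have h1 : Mv (P (k + 1)) (t (k + 1)) (t (k + 2)) := hMt (k + 1)
    rw [hGP] at h1
    have hadj : Mv (P k).adjugate (t (k + 1)) (t k) := Mv.adj (hMt k)
    have h2 := (h1.cancel (by rw [det_adj', hP]; exact_mod_cast hp.ne_zero) hadj).jInv hG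
    have h3 := (hdec (k + 1)).trans (hdec k)
    rw [h2] at h3
    exact lt_irrefl _ h3
  refine ⟨t, s, P, Q, B, ht0, hs0, h0, ⟨hP, hQ, hMt, fun k => ?_, fun k => by rw [hB, hA],
    hpr hPrm, hs, hc, hne, by rw [ht0]; exact hlt, hdec⟩, hback, fun k => ?_⟩
  · have h1 : Mv (B (k + 1) * P k) (t k) (s (k + 1)) := Mv.mul (hMt k) (hs (k + 1))
    rw [← hc] at h1
    exact h1.cancel (hdet0 k).ne' (hs k)
  · rw [hnb]; exact hback k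

/-- the exact form of the row -/
theorem exists_rays_core (hv : IsNonarchimedean v) (hp : p.Prime) {x₀ : ℂ} {μ : ℝ}
    (hx : Canon v p x₀ μ) {N : ℤ} (hN : 0 < N) (hpN : ¬ (p : ℤ) ∣ N) {A₀ : Mat} (hA : A₀.det = N)
    (hpA : Prm A₀) {σ σ' : ℍ} (hM : Mov A₀ σ σ') (hlt : v (jInv σ - x₀) < 1)
    (hne : ∀ (k : ℕ) (B : Mat) (ρ : ℍ), B.det = (p : ℤ) ^ k → Mov B σ ρ → jInv ρ ≠ x₀) :
    ∃ (τ τ' : ℕ → ℍ) (P P' A : ℕ → Mat), Rays v p x₀ N τ τ' P P' A ∧ τ 0 = σ ∧ τ' 0 = σ' ∧ A 0 = A₀ := by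
  obtain ⟨t, s, P, Q, B, h1, h2, h3, h4, -⟩ := exists_rays_nb hp hx hN hpN hA hpA hM hne hlt
  exact ⟨t, s, P, Q, B, h4, h1, h2, h3⟩

/-- **a step of the second ray which is not canonical is followed by a step which is not
canonical** -/
theorem not_canon_step (hp : p.Prime) {y₀ : ℂ} (hC : Canon v p y₀ μ) {s : ℕ → ℍ} {Q : ℕ → Mat}
    (hQ : ∀ k, (Q k).det = p) (hM : ∀ k, Mov (Q k) (s k) (s (k + 1)))
    (hnb : ∀ k, ¬ Dv p (Q (k + 1) * Q k)) {k : ℕ} (hne : jInv (s (k + 1)) ≠ y₀)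
    (hlt : v (jInv (s (k + 1)) - y₀) < 1) (hk : v (jInv (s k) - y₀) < v (jInv (s (k + 1)) - y₀)) :
    v (jInv (s (k + 1)) - y₀) < v (jInv (s (k + 2)) - y₀) := by
  rcases lt_trichotomy (v (jInv (s (k + 2)) - y₀)) (v (jInv (s (k + 1)) - y₀)) with h | h | h
  · exfalso
    have hadj : Mov (Q k).adjugate (s (k + 1)) (s k) := Mv.adj (hM k)
    obtain ⟨G, hG, hGQ⟩ := hC.uniq (s (k + 1)) (s k) (s (k + 2)) (Q k).adjugate (Q (k + 1))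
      (by rw [det_adj', hQ]) hadj (hQ (k + 1)) (hM (k + 1)) hne hlt hk h
    exact hnb k ((dv_mul_iff hp (hQ k) (hQ (k + 1))).mpr ⟨G, hG, hGQ⟩)
  · exact absurd h (hC.ne (s (k + 1)) (s (k + 2)) (Q (k + 1)) (hQ _) (hM _) hne hlt)
  · exact h

end Pool.Agent.R3h27
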